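import Pool.Agent.H75.OM.TC

/-!
Row CLQ of omn_modules: the statement that a language has small circuits is a formula of the
oracle.
-/

set_option autoImplicit false

namespace Pool.Agent.H43.OM

open Finset Pool.Agent.H6.NB Pool.Agent.H70.OQ Pool.Agent.H70.EH Pool.Agent.H70.EI Pool.Agent.H78.XQ
open Pool.Agent.H75.OM

theorem pow_bd (k s : ℕ) : 3 * s * ((k + 2) * s + 4) + s ≤ (k + 4) * (s + 2) ^ 4 := by
  have e : (k + 4) * (s + 2) ^ 4 = (3 * s * ((k + 2) * s + 4) + s) +
      (k * s ^ 4 + 8 * (k * s ^ 3) + 21 * (k * s ^ 2) + 32 * (k * s) + 16 * k +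
        4 * s ^ 4 + 32 * s ^ 3 + 90 * s ^ 2 + 115 * s + 64) := by ring
  rw [e]
  exact Nat.le_add_right _ _

theorem small_bd (k s : ℕ) : s + 1 ≤ (k + 4) * (s + 2) ^ 4 := by
  have e : (k + 4) * (s + 2) ^ 4 = (s + 1) +
      (k * (s + 2) ^ 4 + 4 * s ^ 4 + 32 * s ^ 3 + 96 * s ^ 2 + 127 * s + 63) := by ring
  rw [e]
  exact Nat.le_add_right _ _

theorem card_bd {k n s a S : ℕ} (hS : 2 ^ ((k + 4) * (s + 2) ^ 4) ≤ S) (hn : n ≤ s)
    (ha : a ≤ (n + k * s + s + 4) ^ (3 * s)) : a * (s + 1) ≤ S := by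
  have h1 : n + k * s + s + 4 ≤ 2 ^ ((k + 2) * s + 4) := by
    refine le_trans ?_ (Nat.lt_two_pow_self (n := (k + 2) * s + 4)).le
    have : (k + 2) * s = k * s + 2 * s := by ring
    omega
  have h2 : s + 1 ≤ 2 ^ s := Nat.lt_two_pow_self
  calc a * (s + 1) ≤ (2 ^ ((k + 2) * s + 4)) ^ (3 * s) * 2 ^ s :=
        Nat.mul_le_mul (ha.trans (Nat.pow_le_pow_left h1 _)) h2
    _ = 2 ^ (3 * s * ((k + 2) * s + 4) + s) := by
        rw [← pow_mul, ← pow_add]
        congr 1
        ring
    _ ≤ 2 ^ ((k + 4) * (s + 2) ^ 4) := Nat.pow_le_pow_right (by norm_num) (pow_bd k s)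
    _ ≤ S := hS

theorem flatten_len {t : ℕ} : ∀ {ws : List (List Bool)}, (∀ w ∈ ws, w.length = t) →
    ws.flatten.length = ws.length * t := by
  intro ws
  induction ws with
  | nil => intro _; simp
  | cons w ws ih =>
    intro h
    rw [List.flatten_cons, List.length_append, h w List.mem_cons_self,
      ih fun w' hw' => h w' (List.mem_cons_of_mem _ hw'), List.length_cons]
    ring

theorem acc_congr (h6 : T_ALG) {k t n s : ℕ} {O : List Bool → Bool} {C C' : Circ} (ht : t ≤ s)
    (h : ∀ x : List Bool, x.length + s ≤ n + k * s + s → cout O C' x = cout O C x)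
    {x : List Bool} (hx : x.length = n) : Acc k t O C x ↔ Acc k t O C' x := by
  refine h6 t k true _ _ fun ws hw hl => ?_
  rw [h]
  rw [List.length_append, hx, flatten_len hl, hw]
  have : k * t ≤ k * s := Nat.mul_le_mul_left _ ht
  omega

open Classical in
/-- CLQ: the statement that a language has small circuits is a formula. -/
theorem pf_CLQ (h1 : T_MNS) (h2 : Pool.Agent.H70.EI.T_CNJ) (h3 : T_CTF) (h4 : T_CNC)
    (h5 : T_ALE) (h6 : T_ALG) : T_CLQ := by
  intro X S e k n s O L hS hn hO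
  obtain ⟨A, hA, hAs, hAe⟩ := h4 s (n + k * s + s)
  have hsm := small_bd k s
  have hp : ∀ j ≤ s + 1, 2 ^ j ≤ S := fun j hj =>
    (Nat.pow_le_pow_right (by norm_num) (hj.trans hsm)).trans hS
  have hS2 : 2 ≤ S := (hp 1 (by omega))
  let F : Circ × ℕ → (X → Bool) → Bool := fun p y =>
    decide (∀ i ∈ (univ : Finset (Fin n → Bool)),
      decide (Acc k p.2 (O y) p.1 (List.ofFn i)) = decide (List.ofFn i ∈ L))
  have hF : ∀ p ∈ A ×ˢ Finset.range (s + 1), Cl X S (e + 2 + k + 1 + 2) (F p) := by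
    intro p hp'
    rw [Finset.mem_product, Finset.mem_range] at hp'
    have hcl : Cl X S (e + 2 + k + 1 + 2) _ := h2 X (Fin n → Bool) S (e + 2 + k + 1) univ
      (fun i y => decide (Acc k p.2 (O y) p.1 (List.ofFn i))) (fun i => decide (List.ofFn i ∈ L))
      hS2 ?_ ?_
    · refine Eq.mp (congrArg (Cl X S _) (funext fun y => ?_)) hcl
      exact decide_eq_decide.2 Iff.rfl
    · rw [Finset.card_univ, Fintype.card_fun, Fintype.card_bool, Fintype.card_fin]
      exact hp n (by omega)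
    · intro i _
      refine h5 X S p.2 (e + 2) k (fun ws y => cout (O y) p.1 (List.ofFn i ++ ws.flatten)) hS2
        (hp _ (by omega)) fun ws _ _ => ?_
      exact h3 X S e s O p.1 _ hS2 (hp s (by omega)) (hAs _ hp'.1) hO
  have hcard : (A ×ˢ Finset.range (s + 1)).card ≤ S := by
    rw [Finset.card_product, Finset.card_range]
    exact card_bd hS hn hA
  refine h1 X S S (e + 2 + k + 1 + 2 + 1) (e + k + 10) _ ?_ le_rfl (by omega) (by omega)
  refine ⟨(A ×ˢ Finset.range (s + 1)).card,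
    fun j => F ((A ×ˢ Finset.range (s + 1)).equivFin.symm j).1, fun _ => true, hcard,
    fun j => hF _ ((A ×ˢ Finset.range (s + 1)).equivFin.symm j).2, fun y => ?_⟩
  rw [decide_eq_true_eq]
  constructor
  · rintro ⟨C, t, hC, ht, hL⟩
    obtain ⟨C', hC', heq⟩ := hAe C hC
    have hm : (C', t) ∈ A ×ˢ Finset.range (s + 1) :=
      Finset.mem_product.2 ⟨hC', Finset.mem_range.2 (by omega)⟩
    refine ⟨(A ×ˢ Finset.range (s + 1)).equivFin ⟨(C', t), hm⟩, ?_⟩
    change F ((A ×ˢ Finset.range (s + 1)).equivFin.symm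
      ((A ×ˢ Finset.range (s + 1)).equivFin ⟨(C', t), hm⟩)).1 y = true
    rw [Equiv.symm_apply_apply]
    change decide _ = true
    rw [decide_eq_true_eq]
    intro i _
    rw [decide_eq_decide]
    have hx : (List.ofFn i).length = n := List.length_ofFn
    rw [hL _ hx]
    exact (acc_congr h6 ht (fun x hx' => heq (O y) x hx') hx).symm
  · rintro ⟨j, hj⟩
    have hm := ((A ×ˢ Finset.range (s + 1)).equivFin.symm j).2
    change F ((A ×ˢ Finset.range (s + 1)).equivFin.symm j).1 y = true at hj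
    generalize ((A ×ˢ Finset.range (s + 1)).equivFin.symm j).1 = p at hj hm
    rw [Finset.mem_product, Finset.mem_range] at hm
    have hj' : decide (∀ i ∈ (univ : Finset (Fin n → Bool)),
      decide (Acc k p.2 (O y) p.1 (List.ofFn i)) = decide (List.ofFn i ∈ L)) = true := hj
    rw [decide_eq_true_eq] at hj'
    refine ⟨p.1, p.2, hAs _ hm.1, by omega, fun x hx => ?_⟩
    have h7 := hj' (fun i => x.get (i.cast hx.symm)) (Finset.mem_univ _)
    have h8 : List.ofFn (fun i : Fin n => x.get (i.cast hx.symm)) = x := by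
      subst hx
      exact List.ofFn_get x
    rw [h8, decide_eq_decide] at h7
    exact h7.symm

end Pool.Agent.H43.OM
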