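import Pool.Agent.H75.OM.TC

/-!
Row CMC of omn_modules: composition of circuits.
-/

set_option autoImplicit false

namespace Pool.Agent.H43.OM

open Finset Pool.Agent.H75.OM

theorem crun_append (O : List Bool → Bool) (A B : Circ) (v : List Bool) :
    crun O (A ++ B) v = crun O B (crun O A v) := List.foldl_append

theorem crun_cons (O : List Bool → Bool) (g : Gate) (B : Circ) (v : List Bool) :
    crun O (g :: B) v = crun O B (v ++ [g.val O v]) := rfl

theorem crun_prefix (O : List Bool → Bool) (C : Circ) : ∀ v : List Bool,
    ∃ w, crun O C v = v ++ w ∧ w.length = C.length := by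
  induction C with
  | nil => intro v; exact ⟨[], (List.append_nil v).symm, rfl⟩
  | cons g C ih =>
    intro v
    obtain ⟨w, hw, hl⟩ := ih (v ++ [g.val O v])
    refine ⟨g.val O v :: w, ?_, by simp [hl]⟩
    rw [crun_cons, hw]
    simp

theorem crun_length (O : List Bool → Bool) (C : Circ) (v : List Bool) :
    (crun O C v).length = v.length + C.length := by
  obtain ⟨w, hw, hl⟩ := crun_prefix O C v
  rw [hw, List.length_append, hl]

theorem crun_drop (O : List Bool → Bool) (C : Circ) (v : List Bool) :
    ((crun O C v).drop v.length).length = C.length := by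
  rw [List.length_drop, crun_length]
  omega

theorem getLastD_append {a b : List Bool} (d : Bool) (h : b ≠ []) :
    (a ++ b).getLastD d = b.getLastD d := by
  rw [List.getLastD_eq_getLast?, List.getLastD_eq_getLast?, List.getLast?_append_of_ne_nil _ h]

theorem getD_last {w : List Bool} (d : Bool) : w.getD (w.length - 1) d = w.getLastD d := by
  rw [List.getLastD_eq_getLast?, List.getD_eq_getElem?_getD, List.getLast?_eq_getElem?]

theorem csize_append (A B : Circ) : csize (A ++ B) = csize A + csize B := by
  unfold csize
  rw [List.map_append, List.sum_append]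

theorem size_ren (n m : ℕ) (ι : ℕ → ℕ) (g : Gate) : (g.ren n m ι).size = g.size := by
  cases g with
  | nand i j => rfl
  | ask l => simp [Gate.ren, Gate.size]

theorem csize_ren (n m : ℕ) (ι : ℕ → ℕ) (C : Circ) : csize (C.map (Gate.ren n m ι)) = csize C := by
  unfold csize
  rw [List.map_map]
  congr 1
  exact List.map_congr_left fun g _ => size_ren n m ι g

theorem noAsk_ren (n m : ℕ) (ι : ℕ → ℕ) {C : Circ} (h : NoAsk C) :
    NoAsk (C.map (Gate.ren n m ι)) := by
  intro g hg
  rw [List.mem_map] at hg
  obtain ⟨g', hg', rfl⟩ := hg
  obtain ⟨i, j, rfl⟩ := h g' hg'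
  exact ⟨_, _, rfl⟩

theorem noAsk_append {A B : Circ} (h : NoAsk A) (h' : NoAsk B) : NoAsk (A ++ B) := by
  intro g hg
  rw [List.mem_append] at hg
  rcases hg with hg | hg
  · exact h g hg
  · exact h' g hg

theorem blocks (h1 : T_INL) (n : ℕ) (t : ℕ → ℕ) (g : ℕ → List Bool → Bool) : ∀ m : ℕ,
    (∀ j < m, Cm n (t j) (g j)) → ∃ (D : Circ) (out : ℕ → ℕ), NoAsk D ∧
      csize D ≤ ∑ j ∈ Finset.range m, t j ∧ ∀ x : List Bool, x.length = n → ∀ j < m,
        out j < n + D.length ∧ (crun (fun _ => false) D x).getD (out j) false = g j x := by
  intro m
  induction m with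
  | zero =>
    intro _
    exact ⟨[], fun _ => 0, fun g hg => absurd hg List.not_mem_nil, Nat.zero_le _,
      fun x _ j hj => absurd hj (Nat.not_lt_zero _)⟩
  | succ m ih =>
    intro hC
    obtain ⟨D, out, hD, hs, hv⟩ := ih fun j hj => hC j (by omega)
    obtain ⟨C, hN, hne, hsz, hf⟩ := hC m (by omega)
    have hlen : 0 < C.length := List.length_pos_iff.2 hne
    refine ⟨D ++ C.map (Gate.ren n (n + D.length) id),
      fun j => if j = m then n + D.length + (C.length - 1) else out j,
      noAsk_append hD (noAsk_ren _ _ _ hN), ?_, ?_⟩
    · rw [csize_append, csize_ren, Finset.sum_range_succ]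
      omega
    · intro x hx
      obtain ⟨w, hw, hwl⟩ := crun_prefix (fun _ => false) D x
      have hul : (crun (fun _ => false) D x).length = n + D.length := by
        rw [crun_length, hx]
      have hI := h1 (fun _ => false) C x (crun (fun _ => false) D x) id (by
        intro i hi
        refine ⟨Or.inl ?_, ?_⟩
        · rw [crun_length]
          simp only [id]
          omega
        · rw [hw]
          simp only [id, List.getD_eq_getElem?_getD]
          rw [List.getElem?_append_left hi])
      rw [hx, hul] at hI
      intro j hj
      rw [crun_append, hI, List.length_append, List.length_map]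
      beta_reduce
      by_cases hjm : j = m
      · rw [if_pos hjm, hjm]
        refine ⟨by omega, ?_⟩
        have e := crun_drop (fun _ => false) C x
        rw [hx] at e
        rw [List.getD_eq_getElem?_getD, List.getElem?_append_right (by rw [hul]; omega), hul,
          Nat.add_sub_cancel_left]
        have e2 : C.length - 1 = ((crun (fun _ => false) C x).drop n).length - 1 := by rw [e]
        rw [e2, ← List.getD_eq_getElem?_getD, getD_last]
        have e3 := hf x hx
        unfold cout at e3
        rw [hx] at e3
        exact e3
      · rw [if_neg hjm]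
        obtain ⟨v1, v2⟩ := hv x hx j (by omega)
        refine ⟨by omega, ?_⟩
        rw [List.getD_eq_getElem?_getD, List.getElem?_append_left (by rw [hul]; exact v1),
          ← List.getD_eq_getElem?_getD]
        exact v2

/-- CMC: composition. -/
theorem pf_CMC (h1 : T_INL) : T_CMC := by
  intro n m s t f g hf hg
  obtain ⟨D, out, hD, hs, hv⟩ := blocks h1 n t g m hg
  obtain ⟨C, hN, hne, hsz, hC⟩ := hf
  have hlen : 0 < C.length := List.length_pos_iff.2 hne
  refine ⟨D ++ C.map (Gate.ren m (n + D.length) out), noAsk_append hD (noAsk_ren _ _ _ hN), ?_, ?_,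
    ?_⟩
  · intro h0
    have := congrArg List.length h0
    rw [List.length_append, List.length_map, List.length_nil] at this
    omega
  · rw [csize_append, csize_ren]
    omega
  · intro x hx
    have hul : (crun (fun _ => false) D x).length = n + D.length := by
      rw [crun_length, hx]
    have hyl : ((List.range m).map fun j => g j x).length = m := by simp
    have hI := h1 (fun _ => false) C ((List.range m).map fun j => g j x)
      (crun (fun _ => false) D x) out (by
      intro i hi
      rw [hyl] at hi
      obtain ⟨v1, v2⟩ := hv x hx i hi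
      refine ⟨Or.inl (by rw [hul]; exact v1), ?_⟩
      rw [v2, List.getD_eq_getElem?_getD, List.getElem?_map, List.getElem?_range hi]
      rfl)
    rw [hyl, hul] at hI
    have e := crun_drop (fun _ => false) C ((List.range m).map fun j => g j x)
    rw [hyl] at e
    have e3 := hC ((List.range m).map fun j => g j x) hyl
    unfold cout at e3 ⊢
    rw [hyl] at e3
    rw [crun_append, hI, hx, List.drop_append_of_le_length (by rw [hul]; omega),
      getLastD_append]
    · exact e3
    · intro h0
      rw [h0, List.length_nil] at e
      omega

end Pool.Agent.H43.OM
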