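import Pool.Agent.H75.OM.TC

/-!
Row GEN of omn_modules: circuits for the generator.
-/

set_option autoImplicit false

namespace Pool.Agent.H43.OM

open Finset Pool.Agent.H75.OM

theorem cm_congr {n s s' : ℕ} {f f' : List Bool → Bool} (h : Cm n s f) (hs : s ≤ s')
    (hf : ∀ x : List Bool, x.length = n → f x = f' x) : Cm n s' f' := by
  obtain ⟨C, h1, h2, h3, h4⟩ := h
  exact ⟨C, h1, h2, h3.trans hs, fun x hx => (h4 x hx).trans (hf x hx)⟩

theorem count_range (F : ℕ → Bool) : ∀ K : ℕ,
    ((List.range K).map F).count true = ((Finset.range K).filter fun i => F i = true).card := by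
  intro K
  induction K with
  | zero => simp
  | succ K ih =>
    rw [List.range_succ, List.map_append, List.count_append, ih, Finset.range_add_one,
      Finset.filter_insert]
    by_cases h : F K = true
    · rw [if_pos h, Finset.card_insert_of_notMem (by simp)]
      simp [h]
    · rw [if_neg h]
      simp [h]

theorem par_list {ι : Type} [Fintype ι] {K : ℕ} (e : Fin K ≃ ι) (f : ι → Bool) (F : ℕ → Bool)
    (hF : ∀ i : Fin K, F i = f (e i)) :
    par f = decide (Odd (((List.range K).map F).count true)) := by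
  have h : (univ.filter fun i => f i = true).card =
      ((Finset.range K).filter fun i => F i = true).card := by
    rw [Finset.card_filter, Finset.card_filter, ← Equiv.sum_comp e, Finset.sum_range]
    exact Finset.sum_congr rfl fun i _ => by rw [hF]
  unfold par
  rw [h, count_range]

theorem cm_lin (h1 : T_CMC) (h2 : T_CMB) (h3 : T_CMG) {l N : ℕ}
    (M : (Fin l → Bool) → Fin N → Fin l → Bool) (a : Fin l → Bool) (j : Fin l) :
    Cm N (12 * N + 2) fun v => lin M a (fun i : Fin N => v.getD i false) j := by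
  have hG : ∀ i < N, Cm N 2 (fun v : List Bool =>
      if h : i < N then (if M a ⟨i, h⟩ j = true then v.getD i false else false) else false) := by
    intro i hi
    by_cases hM : M a ⟨i, hi⟩ j = true
    · refine cm_congr (h2.1 N i) le_rfl fun v _ => ?_
      rw [dif_pos hi, if_pos hM]
    · refine cm_congr (h2.2.1 N false) le_rfl fun v _ => ?_
      rw [dif_pos hi, if_neg hM]
  refine cm_congr (h1 N N (10 * N + 2) (fun _ => 2) (fun x => decide (Odd (x.count true)))
    (fun (i : ℕ) (v : List Bool) =>
      if h : i < N then (if M a ⟨i, h⟩ j = true then v.getD i false else false) else false)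
    (h3 N).2.2 hG) ?_ ?_
  · rw [Finset.sum_const, Finset.card_range, smul_eq_mul]
    omega
  · intro v _
    refine Eq.symm (par_list (Equiv.refl (Fin N)) _ (fun i : ℕ =>
      if h : i < N then (if M a ⟨i, h⟩ j = true then v.getD i false else false) else false) ?_)
    intro i
    beta_reduce
    rw [dif_pos i.2]
    change (if M a i j = true then v.getD (i : ℕ) false else false) =
      (v.getD (i : ℕ) false && M a i j)
    cases M a i j <;> simp

theorem cm_row (h1 : T_CMC) (h2 : T_CMB) (h3 : T_CMG) (h4 : T_ALF) {l N : ℕ}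
    (M : (Fin l → Bool) → Fin N → Fin l → Bool)
    (z : (Fin l → Bool) × (Fin l → Bool) → Bool) (a : Fin l → Bool) :
    Cm N (2 ^ (l + 5) + l * (12 * N + 2)) fun v =>
      z (a, lin M a fun i : Fin N => v.getD i false) := by
  refine cm_congr (h1 N l (2 ^ (l + 5)) (fun _ => 12 * N + 2)
    (fun s => z (a, fun j : Fin l => s.getD j false))
    (fun (j : ℕ) (v : List Bool) =>
      if h : j < l then lin M a (fun i : Fin N => v.getD i false) ⟨j, h⟩ else false)
    (h4 l _) ?_) ?_ ?_
  · intro j hj
    refine cm_congr (cm_lin h1 h2 h3 M a ⟨j, hj⟩) le_rfl fun v _ => ?_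
    rw [dif_pos hj]
  · rw [Finset.sum_const, Finset.card_range, smul_eq_mul]
  · intro v _
    congr 2
    funext j
    rw [List.getD_eq_getElem?_getD, List.getElem?_map, List.getElem?_range j.2]
    simp

/-- GEN: circuits for the generator. -/
theorem pf_GEN (h1 : T_CMC) (h2 : T_CMB) (h3 : T_CMG) (h4 : T_ALF) : T_GEN := by
  intro l N M z
  have hcard : Fintype.card (Fin l → Bool) = 2 ^ l := by simp
  let e : Fin (2 ^ l) ≃ (Fin l → Bool) := (Fintype.equivFinOfCardEq hcard).symm
  refine cm_congr (h1 N (2 ^ l) (10 * 2 ^ l + 2) (fun _ => 2 ^ (l + 5) + l * (12 * N + 2))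
    (fun x => decide (Odd (x.count true)))
    (fun (i : ℕ) (v : List Bool) =>
      if h : i < 2 ^ l then z (e ⟨i, h⟩, lin M (e ⟨i, h⟩) fun i : Fin N => v.getD i false)
      else false)
    (h3 (2 ^ l)).2.2 ?_) ?_ ?_
  · intro i hi
    refine cm_congr (cm_row h1 h2 h3 h4 M z (e ⟨i, hi⟩)) le_rfl fun v _ => ?_
    rw [dif_pos hi]
  · rw [Finset.sum_const, Finset.card_range, smul_eq_mul]
    have hl : l < 2 ^ l := Nat.lt_two_pow_self
    have h0 : 1 ≤ 2 ^ l := Nat.one_le_two_pow
    have e1 : 2 ^ (l + 5) = 32 * 2 ^ l := by ring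
    have e2 : 2 ^ (2 * l + 8) = 256 * (2 ^ l * 2 ^ l) := by ring
    rw [e1, e2]
    generalize 2 ^ l = K at *
    have h5 : l * (12 * N + 2) ≤ K * (12 * N + 2) := Nat.mul_le_mul_right _ hl.le
    have h6 : K * (32 * K + l * (12 * N + 2)) ≤ K * (32 * K + K * (12 * N + 2)) :=
      Nat.mul_le_mul_left _ (by omega)
    have h7 : K ≤ K * K := Nat.le_mul_of_pos_left _ h0
    nlinarith
  · intro v _
    refine Eq.symm (par_list e _ (fun i : ℕ =>
      if h : i < 2 ^ l then z (e ⟨i, h⟩, lin M (e ⟨i, h⟩) fun i : Fin N => v.getD i false)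
      else false) ?_)
    intro i
    rw [dif_pos i.2]

end Pool.Agent.H43.OM
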